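import Pool.Agent.X76.Wreath

set_option autoImplicit false

/-!
Edge colourings of wreath products: the question of Anderson and Lipman for graphs `G'` with a vertex
of maximum degree in a largest orbit, and more generally.

Proof idea.  Colour the edges of all fibres in the same way with `q` colours.  The edges which change
the second coordinate inside an orbit with `m` vertices and join different fibres get
`Δ(G) (m - 1)` new colours, according to the colour of the edge of `G` and the difference of the
positions of the second coordinates in the orbit (modulo `m`).  The remaining edges join vertices with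
equal second coordinates; they are coloured with the colours still available at these vertices, which
are the same in all fibres, according to the colour of the edge of `G`.
-/

namespace Pool.Agent.Results.MP_632be6_co.LargeOrbits

open SimpleGraph

/-- The edges of the simple graph `H` can be properly coloured with `k` colours. -/
def EdgeColourable {U : Type} (k : ℕ) (H : SimpleGraph U) : Prop :=
  ∃ c : U → U → ℕ, ∀ u v, H.Adj u v → c u v = c v u ∧ c u v < k ∧
    ∀ w, H.Adj u w → v ≠ w → c u v ≠ c u w

/-- The wreath product of `G` and `G'`. -/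
def wreath {V W : Type} (G : SimpleGraph V) (G' : SimpleGraph W) : SimpleGraph (V × W) where
  Adj p q := (p.1 = q.1 ∧ G'.Adj p.2 q.2) ∨ (G.Adj p.1 q.1 ∧ ∃ φ : G' ≃g G', φ p.2 = q.2)
  symm := ⟨by
    rintro p q (⟨h1, h2⟩ | ⟨h1, φ, h2⟩)
    · exact Or.inl ⟨h1.symm, h2.symm⟩
    · exact Or.inr ⟨h1.symm, φ.symm, by rw [← h2]; simp⟩⟩
  loopless := ⟨by
    rintro p (⟨-, h2⟩ | ⟨h1, -⟩)
    · exact G'.loopless.irrefl _ h2
    · exact G.loopless.irrefl _ h1⟩

/-- The number of vertices in the orbit of `w` under the automorphism group of `G'`. -/
noncomputable def orbitSize {W : Type} (G' : SimpleGraph W) (w : W) : ℕ :=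
  {w' | ∃ φ : G' ≃g G', φ w = w'}.ncard

/-- **Wreath products of class `1`.**  Let `G` be a graph with at least one edge whose chromatic index
is its maximum degree, and let `G'` be a graph.  The chromatic index of the wreath product is its
maximum degree, if

(1) `Δ(G) (m - 1) + Δ(G') < Δ(G ρ G')` for the sizes `m` of all orbits of `G'`; for instance
(2) if some vertex of maximum degree of `G'` is in an orbit of maximum size; or
(3) the chromatic index of `G'` is `Δ(G')` and `Δ(G) (m - 1) + Δ(G') ≤ Δ(G ρ G')` for the sizes `m`
of all orbits of `G'`; for instance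
(4) if the chromatic index of `G'` is `Δ(G')` and no orbit of `G'` has more than `m + 1` vertices,
where `m` is the size of the orbit of some vertex of maximum degree. -/
theorem result (V W : Type) [Fintype V] [Fintype W] (G : SimpleGraph V) (G' : SimpleGraph W)
    [DecidableRel G.Adj] [DecidableRel G'.Adj] [DecidableRel (wreath G G').Adj]
    (hne : ∃ x y, G.Adj x y) (hG : EdgeColourable G.maxDegree G) :
    ((∀ w, G.maxDegree * (orbitSize G' w - 1) + G'.maxDegree < (wreath G G').maxDegree) →
      EdgeColourable (wreath G G').maxDegree (wreath G G')) ∧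
    ((∃ w₀, G'.degree w₀ = G'.maxDegree ∧ ∀ w, orbitSize G' w ≤ orbitSize G' w₀) →
      EdgeColourable (wreath G G').maxDegree (wreath G G')) ∧
    (EdgeColourable G'.maxDegree G' →
      (∀ w, G.maxDegree * (orbitSize G' w - 1) + G'.maxDegree ≤ (wreath G G').maxDegree) →
      EdgeColourable (wreath G G').maxDegree (wreath G G')) ∧
    (EdgeColourable G'.maxDegree G' →
      (∃ w₀, G'.degree w₀ = G'.maxDegree ∧ ∀ w, orbitSize G' w ≤ orbitSize G' w₀ + 1) →
      EdgeColourable (wreath G G').maxDegree (wreath G G')) := by
  letI iD : DecidableRel (X76.Wr.wreath G G').Adj :=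
    (inferInstance : DecidableRel (wreath G G').Adj)
  have hmain : ∀ q, EdgeColourable q G' →
      (∀ w, G.maxDegree * (orbitSize G' w - 1) + q ≤ (wreath G G').maxDegree) →
      EdgeColourable (wreath G G').maxDegree (wreath G G') := by
    intro q hq h
    have := X76.Wr.main G G' hG q hq
    exact this h
  have hbound : ∀ w, G.maxDegree * orbitSize G' w + G'.degree w ≤ (wreath G G').maxDegree := by
    intro w
    obtain ⟨x, -⟩ := hne
    exact X76.Wr.max_bound G G' x w
  have hpos : 1 ≤ G.maxDegree := by
    obtain ⟨x, y, hxy⟩ := hne
    exact ((G.degree_pos_iff_exists_adj x).2 ⟨y, hxy⟩).trans_le (G.degree_le_maxDegree x)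
  have hviz : EdgeColourable (G'.maxDegree + 1) G' :=
    X76.Wr.vizing_EC G' G'.maxDegree fun w => G'.degree_le_maxDegree w
  have h1 : (∀ w, G.maxDegree * (orbitSize G' w - 1) + G'.maxDegree < (wreath G G').maxDegree) →
      EdgeColourable (wreath G G').maxDegree (wreath G G') := by
    intro h
    apply hmain _ hviz
    intro w
    have := h w
    omega
  refine ⟨h1, ?_, ?_, ?_⟩
  · rintro ⟨w₀, hw₀, h⟩
    apply h1
    intro w
    have h2 := hbound w₀
    rw [hw₀] at h2
    have h3 : G.maxDegree * (orbitSize G' w - 1) + G.maxDegree ≤
        G.maxDegree * orbitSize G' w₀ ∨ orbitSize G' w = 0 := by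
      by_cases h4 : orbitSize G' w = 0
      · exact Or.inr h4
      · left
        have h5 : G.maxDegree * (orbitSize G' w - 1) + G.maxDegree =
            G.maxDegree * orbitSize G' w := by
          obtain ⟨k, hk⟩ : ∃ k, orbitSize G' w = k + 1 := ⟨orbitSize G' w - 1, by omega⟩
          rw [hk, Nat.add_sub_cancel, Nat.mul_succ]
        rw [h5]
        exact Nat.mul_le_mul_left _ (h w)
    rcases h3 with h3 | h3
    · omega
    · exfalso
      have h4 : 0 < orbitSize G' w :=
        (Set.ncard_pos (Set.toFinite _)).2 ⟨w, SimpleGraph.Iso.refl, rfl⟩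
      omega
  · intro hq h
    exact hmain _ hq h
  · rintro hq ⟨w₀, hw₀, h⟩
    apply hmain _ hq
    intro w
    have h2 := hbound w₀
    rw [hw₀] at h2
    have h3 : G.maxDegree * (orbitSize G' w - 1) ≤ G.maxDegree * orbitSize G' w₀ := by
      apply Nat.mul_le_mul_left
      have := h w
      omega
    omega

end Pool.Agent.Results.MP_632be6_co.LargeOrbits
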